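import Pool.Agent.Q113.XM.Stm

/-! Project XM (helper113), job CLQ. -/

set_option autoImplicit false

namespace Pool.Agent.Q224.XM

open Finset Pool.Agent.W890.SF Pool.Agent.Q113.XM

section general
variable {V : Type} [DecidableEq V]

theorem ms_mono (k : ℕ) (F : Finset (Finset V)) {T' T : Finset V} (h : T' ⊆ T) (v : V) :
    ms k F T' v ≤ ms k F T v := by
  unfold ms
  apply card_le_card
  apply filter_subset_filter
  apply powersetCard_mono
  exact erase_subset_erase v h

theorem dg_lower (k : ℕ) (F : Finset (Finset V)) (T : Finset V) {v : V} (hv : v ∈ T) :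
    (T.card - 1).choose (k - 1) ≤ dg F v + ms k F T v := by
  have h1 : ((T.erase v).powersetCard (k - 1)).card = (T.card - 1).choose (k - 1) := by
    rw [card_powersetCard, card_erase_of_mem hv]
  rw [← h1, ← card_filter_add_card_filter_not (s := (T.erase v).powersetCard (k - 1))
    (fun S => insert v S ∈ F)]
  apply add_le_add
  · unfold dg
    apply card_le_card_of_injOn (fun S => insert v S)
    · intro S hS
      rw [mem_coe, mem_filter] at hS
      rw [mem_coe, mem_filter]
      exact ⟨hS.2, mem_insert_self _ _⟩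
    · intro S hS S' hS' h
      rw [mem_coe, mem_filter, mem_powersetCard] at hS hS'
      have a1 : v ∉ S := fun hvS => notMem_erase v T (hS.1.1 hvS)
      have a2 : v ∉ S' := fun hvS => notMem_erase v T (hS'.1.1 hvS)
      simp only at h
      rw [← erase_insert a1, h, erase_insert a2]
  · exact le_rfl

theorem choose_lower (N r : ℕ) (x : ℝ) (hx : 0 ≤ x) (h : x + r ≤ N + 1) :
    x ^ r ≤ (r.factorial : ℝ) * (N.choose r : ℝ) := by
  have h1 : (N + 1 - r) ^ r ≤ N.descFactorial r := Nat.pow_sub_le_descFactorial N r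
  rw [Nat.descFactorial_eq_factorial_mul_choose] at h1
  have h2 : x ≤ ((N + 1 - r : ℕ) : ℝ) := by
    have h3 : (r : ℝ) ≤ N + 1 := by linarith
    have h4 : r ≤ N + 1 := by exact_mod_cast h3
    rw [Nat.cast_sub h4]
    push_cast
    linarith
  calc x ^ r ≤ ((N + 1 - r : ℕ) : ℝ) ^ r := pow_le_pow_left₀ hx h2 r
    _ ≤ _ := by exact_mod_cast h1

theorem choose_upper (N r : ℕ) : (r.factorial : ℝ) * (N.choose r : ℝ) ≤ (N : ℝ) ^ r := by
  have h1 : N.descFactorial r ≤ N ^ r := Nat.descFactorial_le_pow N r
  rw [Nat.descFactorial_eq_factorial_mul_choose] at h1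
  exact_mod_cast h1

theorem choose_add (N k t : ℕ) (hk : 1 ≤ k) :
    N.choose k + t * N.choose (k - 1) ≤ (N + t).choose k := by
  obtain ⟨j, rfl⟩ : ∃ j, k = j + 1 := ⟨k - 1, by omega⟩
  simp only [Nat.add_sub_cancel]
  induction t with
  | zero => simp
  | succ t ih =>
    rw [← add_assoc, Nat.choose_succ_succ']
    have h1 : N.choose j ≤ (N + t).choose j := Nat.choose_le_choose j (Nat.le_add_right N t)
    rw [Nat.succ_mul]
    omega

theorem union_match {F M₁ M₂ : Finset (Finset V)} {k : ℕ} (hk : 1 ≤ k) (hF : Unif k F)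
    (h1 : M₁ ⊆ F) (h2 : M₂ ⊆ F) (m1 : Mtch M₁) (m2 : Mtch M₂)
    (hd : ∀ e ∈ M₁, Disjoint e (M₂.biUnion id)) :
    M₁ ∪ M₂ ⊆ F ∧ Mtch (M₁ ∪ M₂) ∧ (M₁ ∪ M₂).card = M₁.card + M₂.card := by
  have hdd : ∀ e ∈ M₁, ∀ f ∈ M₂, Disjoint e f := by
    intro e he f hf
    exact disjoint_of_subset_right (subset_biUnion_of_mem id hf) (hd e he)
  refine ⟨union_subset h1 h2, ?_, ?_⟩
  · intro e he f hf hne
    rw [mem_union] at he hf
    rcases he with he | he
    · rcases hf with hf | hf
      · exact m1 e he f hf hne
      · exact hdd e he f hf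
    · rcases hf with hf | hf
      · exact (hdd f hf e he).symm
      · exact m2 e he f hf hne
  · apply card_union_of_disjoint
    rw [disjoint_left]
    intro e he he'
    have h3 := hdd e he e he'
    rw [disjoint_self, bot_eq_empty] at h3
    have h4 := hF e (h1 he)
    rw [h3, card_empty] at h4
    omega

theorem maximal_match (G : Finset (Finset V)) {k : ℕ} (hk : 1 ≤ k) (hG : Unif k G) :
    ∃ M ⊆ G, Mtch M ∧ ∀ e ∈ G, ∃ v ∈ M.biUnion id, v ∈ e := by
  classical
  have hne : (G.powerset.filter (fun M => Mtch M)).Nonempty := by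
    refine ⟨∅, ?_⟩
    rw [mem_filter]
    refine ⟨empty_mem_powerset _, ?_⟩
    intro e he
    exact absurd he (notMem_empty _)
  obtain ⟨M, hM, hmax⟩ := exists_max_image _ card hne
  rw [mem_filter, mem_powerset] at hM
  refine ⟨M, hM.1, hM.2, ?_⟩
  intro e he
  by_contra hcon
  push Not at hcon
  have hd : Disjoint e (M.biUnion id) := by
    rw [disjoint_right]
    exact hcon
  have hsing : ({e} : Finset (Finset V)) ⊆ G := singleton_subset_iff.2 he
  have ms1 : Mtch ({e} : Finset (Finset V)) := by
    intro a ha b hb hab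
    rw [mem_singleton] at ha hb
    exact absurd (ha.trans hb.symm) hab
  have hu := union_match hk hG hsing hM.1 ms1 hM.2 (fun a ha => by
    rw [mem_singleton] at ha
    rw [ha]
    exact hd)
  have h3 := hmax ({e} ∪ M) (by
    rw [mem_filter, mem_powerset]
    exact ⟨hu.1, hu.2.1⟩)
  rw [hu.2.2, card_singleton] at h3
  omega

theorem count_cover (G : Finset (Finset V)) (W : Finset V) (h : ∀ e ∈ G, ∃ v ∈ W, v ∈ e) :
    G.card ≤ ∑ v ∈ W, dg G v := by
  have hsub : G ⊆ W.biUnion (fun v => G.filter (fun e => v ∈ e)) := by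
    intro e he
    obtain ⟨v, hv, hve⟩ := h e he
    rw [mem_biUnion]
    exact ⟨v, hv, mem_filter.2 ⟨he, hve⟩⟩
  exact (card_le_card hsub).trans card_biUnion_le

theorem card_VM {F M : Finset (Finset V)} {k : ℕ} (hF : Unif k F) (h : M ⊆ F) :
    (M.biUnion id).card ≤ k * M.card := by
  refine card_biUnion_le.trans ?_
  rw [mul_comm, ← smul_eq_mul, ← sum_const]
  exact sum_le_sum fun e he => (hF e (h he)).le

end general

theorem t_CLQ (hGRE : S_GRE) (hHMT : S_HMT) : S_CLQ := by
  intro k hk c hc hu
  have hk0 : (0 : ℝ) < k := by exact_mod_cast (by omega : 0 < k)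
  have hk3 : (3 : ℝ) ≤ k := by exact_mod_cast hk
  have hkc : 0 < (k : ℝ) * c := by positivity
  -- the constant θ
  obtain ⟨θ, hθ0, hθ1, hθ2⟩ : ∃ θ : ℝ, 0 < θ ∧ θ ≤ k * c / 2 ∧
      1 ≤ 2 * ((k : ℝ) * c - θ) ^ (k - 1) := by
    have hcont : Continuous (fun t : ℝ => 2 * ((k : ℝ) * c - t) ^ (k - 1)) := by fun_prop
    have hev := (hcont.tendsto 0).eventually_const_lt (u := 1) (by simpa using hu)
    rw [Metric.eventually_nhds_iff] at hev
    obtain ⟨ε, hε, h⟩ := hev
    refine ⟨min (ε / 2) (k * c / 2), by positivity, min_le_right _ _, ?_⟩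
    have h2 : dist (min (ε / 2) (k * c / 2)) 0 < ε := by
      rw [Real.dist_eq, sub_zero, abs_of_pos (by positivity)]
      exact lt_of_le_of_lt (min_le_left _ _) (by linarith)
    exact (h h2).le
  set β : ℝ := (k : ℝ) * c - θ with hβ
  have hβ0 : 0 < β := by rw [hβ]; linarith
  have hfac : (0 : ℝ) < (k.factorial : ℝ) := by exact_mod_cast k.factorial_pos
  have hfac1 : (0 : ℝ) < ((k - 1).factorial : ℝ) := by exact_mod_cast (k - 1).factorial_pos
  have hfack : (k.factorial : ℝ) = k * ((k - 1).factorial : ℝ) := by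
    have := Nat.mul_factorial_pred (n := k) (by omega)
    exact_mod_cast this.symm
  set c2 : ℝ := β ^ (k - 1) / k.factorial with hc2d
  have hc2 : 0 < c2 := by positivity
  obtain ⟨δH, hδH, nH, hH⟩ := hHMT k hk (k * c / 2) c2 (by positivity) hc2
  obtain ⟨δG, hδG, nG, hG⟩ := hGRE k (by omega) c2 hc2
  set δ : ℝ := min δH δG with hδd
  have hδ : 0 < δ := lt_min hδH hδG
  set γ : ℝ := min (min (θ / 4) c2) (min (δ / (2 * k)) (c / 2)) with hγd
  have hγ : 0 < γ := by positivity
  have hγθ : γ ≤ θ / 4 := (min_le_left _ _).trans (min_le_left _ _)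
  have hγc2 : γ ≤ c2 := (min_le_left _ _).trans (min_le_right _ _)
  have hγδ : γ ≤ δ / (2 * k) := (min_le_right _ _).trans (min_le_left _ _)
  have hγc : γ ≤ c / 2 := (min_le_right _ _).trans (min_le_right _ _)
  obtain ⟨n1, hn1⟩ := exists_nat_ge (4 * k / θ + 2 * k * (k + 1) / δ + 2 * k / c + 1)
  refine ⟨γ, hγ, max (max nH nG) n1, ?_⟩
  intro n hn F hF s T hs hksn hT hms hFc
  have hnH : nH ≤ n := (le_max_left _ _).trans ((le_max_left _ _).trans hn)
  have hnG : nG ≤ n := (le_max_right _ _).trans ((le_max_left _ _).trans hn)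
  have hn1' : (4 * k / θ + 2 * k * (k + 1) / δ + 2 * k / c + 1) ≤ (n : ℝ) := by
    refine hn1.trans ?_
    exact_mod_cast (le_max_right _ _).trans hn
  have p1 : 0 < 4 * k / θ := by positivity
  have p2 : 0 < 2 * k * (k + 1) / δ := by positivity
  have p3 : 0 < 2 * k / c := by positivity
  have hnpos : (0 : ℝ) < n := by linarith
  have q1 : 4 * k ≤ θ * n := by
    have : 4 * k / θ ≤ (n : ℝ) := by linarith
    rw [div_le_iff₀ hθ0] at this
    linarith
  have q2 : 2 * k * (k + 1) ≤ δ * n := by
    have : 2 * k * (k + 1) / δ ≤ (n : ℝ) := by linarith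
    rw [div_le_iff₀ hδ] at this
    linarith
  have q3 : 2 * k ≤ c * n := by
    have : 2 * k / c ≤ (n : ℝ) := by linarith
    rw [div_le_iff₀ hc] at this
    linarith
  have hγn1 : γ * n ≤ θ * n / 4 := by
    have := mul_le_mul_of_nonneg_right hγθ hnpos.le
    linarith
  have hγn2 : k * (γ * n) ≤ δ * n / 2 := by
    rw [le_div_iff₀ (by positivity)] at hγδ
    have := mul_le_mul_of_nonneg_right hγδ hnpos.le
    linarith
  have hγn3 : γ * n ≤ c * n / 2 := by
    have := mul_le_mul_of_nonneg_right hγc hnpos.le
    linarith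
  have hγn4 : γ * n ≤ δ * n / 2 := by
    have : γ * n ≤ k * (γ * n) := by
      have h1 : 0 < γ * n := by positivity
      have h2 : (k - 1) * (γ * n) ≥ 0 := mul_nonneg (by linarith) h1.le
      linarith
    linarith
  have q2' : (k : ℝ) ≤ δ * n / 2 := by
    have : 0 ≤ 2 * (k : ℝ) * k := by positivity
    linarith
  have hks : (k : ℝ) * c * n ≤ k * s := by
    have := mul_le_mul_of_nonneg_left hs hk0.le
    linarith
  have hT1 : β * n + 3 * k ≤ (T.card : ℝ) := by
    have : β * n = k * c * n - θ * n := by rw [hβ]; ring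
    linarith
  have hδHle : δ * n ≤ δH * n := mul_le_mul_of_nonneg_right (min_le_left _ _) hnpos.le
  have hδGle : δ * n ≤ δG * n := mul_le_mul_of_nonneg_right (min_le_right _ _) hnpos.le
  have hpow : (0 : ℝ) < (n : ℝ) ^ (k - 1) := by positivity
  have hγδH : γ ≤ δH := by
    have h1 : δ / (2 * k) ≤ δ := div_le_self hδ.le (by linarith)
    exact (hγδ.trans h1).trans (min_le_left _ _)
  have hk1r : ((k - 1 : ℕ) : ℝ) = (k : ℝ) - 1 := by
    rw [Nat.cast_sub (by omega)]; simp
  -- the set H
  set H : Finset (Fin n) := univ.filter (fun v => c2 * (n : ℝ) ^ (k - 1) ≤ (dg F v : ℝ)) with hHd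
  have hHdeg : ∀ v ∈ H, c2 * (n : ℝ) ^ (k - 1) ≤ (dg F v : ℝ) := fun v hv => (mem_filter.1 hv).2
  have hTH : T ⊆ H := by
    intro v hv
    rw [hHd, mem_filter]
    refine ⟨mem_univ _, ?_⟩
    have h1 := dg_lower k F T hv
    have h2 : (((T.card - 1).choose (k - 1) : ℕ) : ℝ) ≤ (dg F v : ℝ) + (ms k F T v : ℝ) := by
      exact_mod_cast h1
    have hT2 : 1 ≤ T.card := card_pos.2 ⟨v, hv⟩
    have h3 := choose_lower (T.card - 1) (k - 1) (β * n) (by positivity) (by
      rw [hk1r, Nat.cast_sub hT2]
      push_cast
      linarith)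
    have h4 := hms v hv
    have h5 : (β * n) ^ (k - 1) / ((k - 1).factorial : ℝ)
        ≤ (((T.card - 1).choose (k - 1) : ℕ) : ℝ) := by
      rw [div_le_iff₀ hfac1]
      linarith
    have h6 : (β * n) ^ (k - 1) / ((k - 1).factorial : ℝ) = k * c2 * (n : ℝ) ^ (k - 1) := by
      rw [hc2d, hfack, mul_pow]
      field_simp
    rw [h6] at h5
    have h7 : γ * (n : ℝ) ^ (k - 1) ≤ c2 * (n : ℝ) ^ (k - 1) :=
      mul_le_mul_of_nonneg_right hγc2 hpow.le
    have h8 : 3 * (c2 * (n : ℝ) ^ (k - 1)) ≤ k * c2 * (n : ℝ) ^ (k - 1) := by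
      have h9 : 0 < c2 * (n : ℝ) ^ (k - 1) := by positivity
      have h10 : 0 ≤ (k - 3) * (c2 * (n : ℝ) ^ (k - 1)) := mul_nonneg (by linarith) h9.le
      linarith
    have h11 : 0 < c2 * (n : ℝ) ^ (k - 1) := by positivity
    linarith
  have hTc0 : k * c / 2 * n ≤ (T.card : ℝ) := by
    have : β * n = k * c * n - θ * n := by rw [hβ]; ring
    have h2 : θ * n ≤ k * c / 2 * n := mul_le_mul_of_nonneg_right hθ1 hnpos.le
    linarith
  have hmsδ : ∀ T' ⊆ T, ∀ v ∈ T', (ms k F T' v : ℝ) ≤ δH * (n : ℝ) ^ (k - 1) := by
    intro T' hT' v hv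
    have h1 : (ms k F T' v : ℝ) ≤ (ms k F T v : ℝ) := by exact_mod_cast ms_mono k F hT' v
    have h2 := hms v (hT' hv)
    have h3 : γ * (n : ℝ) ^ (k - 1) ≤ δH * (n : ℝ) ^ (k - 1) :=
      mul_le_mul_of_nonneg_right hγδH hpow.le
    linarith
  have hks1 : ((k * (s + 1) : ℕ) : ℝ) = k * s + k := by push_cast; ring
  by_cases hcase : k * (s + 1) ≤ H.card
  · -- case (i)
    by_cases hTc : k * (s + 1) ≤ T.card
    · obtain ⟨H', hH'T, hH'c⟩ := exists_subset_card_eq hTc
      obtain ⟨M, hM1, hM2, hM3, -⟩ := hH n hnH F hF H' H' ∅ Subset.rfl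
        (by
          rw [hH'c, hks1]
          linarith)
        (hmsδ H' hH'T) (fun v hv => hHdeg v (hTH (hH'T hv)))
        (by rw [Finset.sdiff_self, card_empty]; push_cast; positivity)
        (by rw [card_empty]; push_cast; positivity) (s + 1) (by rw [sdiff_empty, hH'c])
      exact ⟨M, hM1, hM2, hM3⟩
    · push Not at hTc
      obtain ⟨H', hTH', hH'H, hH'c⟩ := exists_subsuperset_card_eq hTH hTc.le hcase
      obtain ⟨M, hM1, hM2, hM3, -⟩ := hH n hnH F hF T H' ∅ hTH' hTc0
        (hmsδ T Subset.rfl) (fun v hv => hHdeg v (hH'H hv))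
        (by
          rw [card_sdiff_of_subset hTH', Nat.cast_sub (card_le_card hTH'), hH'c, hks1]
          linarith)
        (by rw [card_empty]; push_cast; positivity) (s + 1) (by rw [sdiff_empty, hH'c])
      exact ⟨M, hM1, hM2, hM3⟩
  · -- case (ii)
    push Not at hcase
    obtain ⟨a, ha⟩ : ∃ a, H.card + a + 1 = k * (s + 1) := ⟨k * (s + 1) - 1 - H.card, by omega⟩
    have har : (H.card : ℝ) + a + 1 = k * s + k := by
      rw [← hks1, ← ha]; push_cast; ring
    have hTHc : (T.card : ℝ) ≤ H.card := by exact_mod_cast card_le_card hTH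
    have ha1 : (a : ℝ) ≤ k + γ * n - 1 := by linarith
    have has : a ≤ s := by
      have : (a : ℝ) ≤ s := by linarith
      exact_mod_cast this
    have hka : k * ((a : ℝ) + 1) ≤ δ * n := by
      have := mul_le_mul_of_nonneg_left ha1 hk0.le
      linarith
    set FL : Finset (Finset (Fin n)) := F.filter (fun e => ¬ e ⊆ H) with hFLd
    have hFLF : FL ⊆ F := filter_subset _ _
    have hFLu : Unif k FL := fun e he => hF e (hFLF he)
    -- the claim
    have claim : ∀ M0 ⊆ FL, Mtch M0 → M0.card = a + 1 → HasM F (s + 1) := by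
      intro M0 hM0 hM0m hM0c
      set Z : Finset (Fin n) := M0.biUnion id with hZd
      have hZc : (Z.card : ℝ) ≤ k * (a + 1) := by
        have h1 := card_VM hFLu hM0
        rw [hM0c] at h1
        exact_mod_cast h1
      have hHZ : k * (s - a) ≤ (H \ Z).card := by
        have h1 : (H ∩ Z).card ≤ (k - 1) * (a + 1) := by
          have h2 : H ∩ Z ⊆ M0.biUnion (fun e => e ∩ H) := by
            intro v hv
            rw [mem_inter, hZd, mem_biUnion] at hv
            obtain ⟨hvH, e, he, hve⟩ := hv
            rw [mem_biUnion]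
            exact ⟨e, he, mem_inter.2 ⟨hve, hvH⟩⟩
          refine (card_le_card h2).trans (card_biUnion_le.trans ?_)
          rw [← hM0c, mul_comm, ← smul_eq_mul, ← sum_const]
          refine sum_le_sum fun e he => ?_
          have he' := mem_filter.1 (hM0 he)
          have h3 : (e ∩ H).card < e.card := by
            apply card_lt_card
            refine ⟨inter_subset_left, fun h => he'.2 (fun v hv => (mem_inter.1 (h hv)).2)⟩
          rw [hF e he'.1] at h3
          omega
        have h2 : (H \ Z).card + (H ∩ Z).card = H.card := card_sdiff_add_card_inter H Z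
        obtain ⟨t, ht⟩ : ∃ t, s = a + t := ⟨s - a, by omega⟩
        obtain ⟨j, hj⟩ : ∃ j, k = j + 1 := ⟨k - 1, by omega⟩
        have h3 : k * (s - a) + (k - 1) * (a + 1) = H.card := by
          have h4 : H.card + a + 1 = k * (s + 1) := ha
          rw [ht, hj] at h4 ⊢
          simp only [Nat.add_sub_cancel, Nat.add_sub_cancel_left]
          linarith
        omega
      obtain ⟨M, hM1, hM2, hM3, hM4⟩ := hH n hnH F hF T H Z hTH hTc0 (hmsδ T Subset.rfl) hHdeg
        (by
          rw [card_sdiff_of_subset hTH, Nat.cast_sub (card_le_card hTH)]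
          linarith)
        (by linarith) (s - a) hHZ
      have hu2 := union_match (by omega : 1 ≤ k) hF hM1 (hM0.trans hFLF) hM2 hM0m hM4
      refine ⟨M ∪ M0, hu2.1, hu2.2.1, ?_⟩
      rw [hu2.2.2, hM3, hM0c]
      omega
    set B : Finset (Fin n) := univ.filter (fun v => c2 * (n : ℝ) ^ (k - 1) ≤ (dg FL v : ℝ))
      with hBd
    have hBdeg : ∀ v ∈ B, c2 * (n : ℝ) ^ (k - 1) ≤ (dg FL v : ℝ) := fun v hv => (mem_filter.1 hv).2
    have hBH : B ⊆ H := by
      intro v hv
      rw [hHd, mem_filter]
      refine ⟨mem_univ _, (hBdeg v hv).trans ?_⟩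
      have : dg FL v ≤ dg F v := card_le_card (filter_subset_filter _ hFLF)
      exact_mod_cast this
    by_cases hb : a + 1 ≤ B.card
    · obtain ⟨X, hXB, hXc⟩ := exists_subset_card_eq hb
      obtain ⟨M, hM1, hM2, hM3, -⟩ := hG n hnG FL hFLu X ∅ (disjoint_empty_right _)
        (fun v hv => hBdeg v (hXB hv))
        (by
          rw [hXc, card_empty]
          push_cast
          have h1 : ((a : ℝ) + 1) ≤ k * ((a : ℝ) + 1) :=
            le_mul_of_one_le_left (by positivity) (by linarith)
          linarith)
      exact claim M hM1 hM2 (by rw [hM3, hXc])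
    · push Not at hb
      set F2 : Finset (Finset (Fin n)) := FL.filter (fun e => Disjoint e B) with hF2d
      have hF2FL : F2 ⊆ FL := filter_subset _ _
      have hF2u : Unif k F2 := fun e he => hFLu e (hF2FL he)
      obtain ⟨M', hM'1, hM'2, hM'3⟩ := maximal_match F2 (by omega : 1 ≤ k) hF2u
      by_cases hM'c : a + 1 - B.card ≤ M'.card
      · obtain ⟨M2, hM2s, hM2c⟩ := exists_subset_card_eq hM'c
        have hM2m : Mtch M2 := fun e he f hf => hM'2 e (hM2s he) f (hM2s hf)
        set Z : Finset (Fin n) := M2.biUnion id with hZd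
        have hBZ : Disjoint B Z := by
          rw [hZd, disjoint_biUnion_right]
          intro e he
          exact (mem_filter.1 (hM'1 (hM2s he))).2.symm
        have hZc : Z.card ≤ k * M2.card := card_VM hF2u (hM2s.trans hM'1)
        have hsum : ((B.card : ℝ) + Z.card) ≤ δG * n := by
          have h1 : B.card + Z.card ≤ k * (a + 1) := by
            rw [hM2c] at hZc
            obtain ⟨t, ht⟩ : ∃ t, a + 1 = B.card + t := ⟨a + 1 - B.card, by omega⟩
            have h2 : a + 1 - B.card = t := by omega
            rw [h2] at hZc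
            rw [ht, mul_add]
            have h3 : B.card ≤ k * B.card := Nat.le_mul_of_pos_left _ (by omega)
            omega
          have h2 : (B.card : ℝ) + Z.card ≤ k * (a + 1) := by exact_mod_cast h1
          linarith
        obtain ⟨M, hM1, hM2', hM3, hM4, -⟩ := hG n hnG FL hFLu B Z hBZ hBdeg hsum
        have hu2 := union_match (by omega : 1 ≤ k) hFLu hM1 ((hM2s.trans hM'1).trans hF2FL)
          hM2' hM2m hM4
        refine claim (M ∪ M2) hu2.1 hu2.2.1 ?_
        rw [hu2.2.2, hM3, hM2c]
        omega
      · -- counting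
        exfalso
        push Not at hM'c
        set N : ℕ := H.card - B.card with hNd
        have hBHc : B.card ≤ H.card := card_le_card hBH
        have hF2c : (F2.card : ℝ) ≤ k * ((a : ℝ) - B.card) * (c2 * (n : ℝ) ^ (k - 1)) := by
          have h1 := count_cover F2 (M'.biUnion id) hM'3
          have h2 : (F2.card : ℝ) ≤ ∑ v ∈ M'.biUnion id, (dg F2 v : ℝ) := by exact_mod_cast h1
          have h3 : ∀ v ∈ M'.biUnion id, (dg F2 v : ℝ) ≤ c2 * (n : ℝ) ^ (k - 1) := by
            intro v hv
            rw [mem_biUnion] at hv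
            obtain ⟨e, he, hve⟩ := hv
            have h4 : v ∉ B := by
              intro hvB
              exact disjoint_left.1 (mem_filter.1 (hM'1 he)).2 hve hvB
            have h5 : (dg FL v : ℝ) < c2 * (n : ℝ) ^ (k - 1) := by
              by_contra h
              push Not at h
              exact h4 (mem_filter.2 ⟨mem_univ _, h⟩)
            have h6 : dg F2 v ≤ dg FL v := card_le_card (filter_subset_filter _ hF2FL)
            have h7 : (dg F2 v : ℝ) ≤ dg FL v := by exact_mod_cast h6
            linarith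
          have h4 := sum_le_sum h3
          rw [sum_const, nsmul_eq_mul] at h4
          have h5 : ((M'.biUnion id).card : ℝ) ≤ k * ((a : ℝ) - B.card) := by
            have h6 := card_VM hF2u hM'1
            have h7 : M'.card + B.card ≤ a := by omega
            have h8 : (M'.card : ℝ) + B.card ≤ a := by exact_mod_cast h7
            have h9 : ((M'.biUnion id).card : ℝ) ≤ k * M'.card := by exact_mod_cast h6
            have h10 : k * (M'.card : ℝ) ≤ k * ((a : ℝ) - B.card) :=
              mul_le_mul_of_nonneg_left (by linarith) hk0.le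
            linarith
          have h6 : 0 < c2 * (n : ℝ) ^ (k - 1) := by positivity
          have h7 := mul_le_mul_of_nonneg_right h5 h6.le
          linarith
        -- splitting F
        have hsplit : F.card ≤ B.card * (n - 1).choose (k - 1) + N.choose k + F2.card := by
          have hsub : F ⊆ (B.biUnion (fun v => F.filter (fun e => v ∈ e))) ∪
              ((H \ B).powersetCard k ∪ F2) := by
            intro e he
            rw [mem_union, mem_union]
            by_cases h1 : Disjoint e B
            · right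
              by_cases h2 : e ⊆ H
              · left
                rw [mem_powersetCard]
                refine ⟨fun v hv => ?_, hF e he⟩
                rw [mem_sdiff]
                exact ⟨h2 hv, disjoint_left.1 h1 hv⟩
              · right
                exact mem_filter.2 ⟨mem_filter.2 ⟨he, h2⟩, h1⟩
            · left
              rw [not_disjoint_iff] at h1
              obtain ⟨v, hve, hvB⟩ := h1
              rw [mem_biUnion]
              exact ⟨v, hvB, mem_filter.2 ⟨he, hve⟩⟩
          have hdgle : ∀ v ∈ B, (F.filter (fun e => v ∈ e)).card ≤ (n - 1).choose (k - 1) := by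
            intro v _
            have h1 : (F.filter (fun e => v ∈ e)).card ≤
                (((univ : Finset (Fin n)).erase v).powersetCard (k - 1)).card := by
              apply card_le_card_of_injOn (fun e => e.erase v)
              · intro e he
                rw [mem_coe, mem_filter] at he
                rw [mem_coe, mem_powersetCard]
                refine ⟨erase_subset_erase v (subset_univ e), ?_⟩
                rw [card_erase_of_mem he.2, hF e he.1]
              · intro e he f hf hef
                rw [mem_coe, mem_filter] at he hf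
                simp only at hef
                rw [← insert_erase he.2, hef, insert_erase hf.2]
            rw [card_powersetCard, card_erase_of_mem (mem_univ v), card_univ, Fintype.card_fin]
              at h1
            exact h1
          refine (card_le_card hsub).trans ((card_union_le _ _).trans ?_)
          have h2 : (B.biUnion (fun v => F.filter (fun e => v ∈ e))).card
              ≤ B.card * (n - 1).choose (k - 1) := by
            refine card_biUnion_le.trans ?_
            rw [← smul_eq_mul, ← sum_const]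
            exact sum_le_sum hdgle
          have h3 : ((H \ B).powersetCard k ∪ F2).card ≤ N.choose k + F2.card := by
            refine (card_union_le _ _).trans ?_
            rw [card_powersetCard, card_sdiff_of_subset hBH]
          omega
        have hNm : N + (a + B.card) = k * (s + 1) - 1 := by omega
        have hadd := choose_add N k (a + B.card) (by omega)
        rw [hNm] at hadd
        set D : ℕ := N.choose (k - 1) with hDd
        -- bounds for D
        have hBa : (B.card : ℝ) ≤ a := by exact_mod_cast (by omega : B.card ≤ a)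
        have hNr : (N : ℝ) = H.card - B.card := by rw [hNd, Nat.cast_sub hBHc]
        have hNlow : β * n + ((k - 1 : ℕ) : ℝ) ≤ N + 1 := by
          have h1 : β * n = k * c * n - θ * n := by rw [hβ]; ring
          rw [hk1r, hNr]
          linarith
        have hDl := choose_lower N (k - 1) (β * n) (by positivity) hNlow
        have hD1 : k * (c2 * (n : ℝ) ^ (k - 1)) ≤ D := by
          have h6 : (β * n) ^ (k - 1) / ((k - 1).factorial : ℝ) = k * (c2 * (n : ℝ) ^ (k - 1)) := by
            rw [hc2d, hfack, mul_pow]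
            field_simp
          rw [← h6, div_le_iff₀ hfac1]
          linarith
        have hD2 : (((n - 1).choose (k - 1) : ℕ) : ℝ) ≤ 2 * D := by
          have h1 := choose_upper (n - 1) (k - 1)
          have h2 : (((n - 1 : ℕ) : ℝ)) ^ (k - 1) ≤ (n : ℝ) ^ (k - 1) := by
            apply pow_le_pow_left₀ (by positivity)
            exact_mod_cast Nat.sub_le n 1
          have h3 : (n : ℝ) ^ (k - 1) ≤ 2 * (β * n) ^ (k - 1) := by
            rw [mul_pow]
            have h5 := mul_le_mul_of_nonneg_right hθ2 hpow.le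
            linarith
          have h4 : ((k - 1).factorial : ℝ) * (((n - 1).choose (k - 1) : ℕ) : ℝ)
              ≤ ((k - 1).factorial : ℝ) * (2 * D) := by
            calc _ ≤ (n : ℝ) ^ (k - 1) := h1.trans h2
              _ ≤ 2 * (β * n) ^ (k - 1) := h3
              _ ≤ 2 * (((k - 1).factorial : ℝ) * D) := by linarith
              _ = _ := by ring
          exact le_of_mul_le_mul_left h4 hfac1
        have e1 : (N.choose k : ℝ) + (a + B.card) * D < F.card := by
          have h1 : N.choose k + (a + B.card) * D < F.card := lt_of_le_of_lt hadd hFc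
          exact_mod_cast h1
        have e2 : (F.card : ℝ) ≤ B.card * (((n - 1).choose (k - 1) : ℕ) : ℝ) + N.choose k +
            F2.card := by
          exact_mod_cast hsplit
        have hB0 : (0 : ℝ) ≤ B.card := by positivity
        have e3 : (B.card : ℝ) * (((n - 1).choose (k - 1) : ℕ) : ℝ) ≤ B.card * (2 * D) :=
          mul_le_mul_of_nonneg_left hD2 hB0
        have e4 : k * ((a : ℝ) - B.card) * (c2 * (n : ℝ) ^ (k - 1)) ≤ ((a : ℝ) - B.card) * D := by
          have h1 : 0 ≤ (a : ℝ) - B.card := by linarith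
          have h2 := mul_le_mul_of_nonneg_left hD1 h1
          linarith
        linarith

end Pool.Agent.Q224.XM
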