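import Pool.Agent.Q113.XM.Stm

/-!
# Project XM, job STC: stability on the clique side
-/

set_option autoImplicit false

namespace Pool.Agent.Q224.XM

open Finset Pool.Agent.W890.SF Pool.Agent.W593.IR Pool.Agent.Q54.EM Pool.Agent.Q113.XM

theorem EE_le_one {ι : Type} [Fintype ι] {p y : ι → ℝ} (hw : Wl p y) : ∀ (n : ℕ) (f : ℝ → ℝ),
    (∀ s, f s ≤ 1) → EE p y n f ≤ 1
  | 0, f, hf => hf 0
  | n + 1, f, hf => by
    show ∑ i, p i * EE p y n (fun s => f (s + y i)) ≤ 1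
    calc ∑ i, p i * EE p y n (fun s => f (s + y i)) ≤ ∑ i, p i * 1 :=
        Finset.sum_le_sum fun i _ =>
          mul_le_mul_of_nonneg_left (EE_le_one hw n _ fun s => hf _) (hw.p0 i)
      _ = 1 := by simp [hw.p1]

theorem UP_le_one {ι : Type} [Fintype ι] {p y : ι → ℝ} (hw : Wl p y) (n : ℕ) (t : ℝ) :
    UP p y n t ≤ 1 :=
  EE_le_one hw n _ fun s => by split_ifs <;> norm_num

/-- the mass above the level `g` -/
noncomputable def ma {ι : Type} [Fintype ι] (p y : ι → ℝ) (g : ℝ) : ℝ :=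
  ∑ i, if g < y i then p i else 0

theorem ma_nonneg {ι : Type} [Fintype ι] {p y : ι → ℝ} (hw : Wl p y) (g : ℝ) : 0 ≤ ma p y g :=
  Finset.sum_nonneg fun i _ => by split_ifs; exacts [hw.p0 i, le_rfl]

theorem ma_le_one {ι : Type} [Fintype ι] {p y : ι → ℝ} (hw : Wl p y) (g : ℝ) : ma p y g ≤ 1 := by
  rw [← hw.p1]
  exact Finset.sum_le_sum fun i _ => by split_ifs; exacts [le_rfl, hw.p0 i]

/-- a law without mass above `g` -/
theorem up_of_ma {k : ℕ} (hL : LMW k) {c : ℝ}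
    (h1 : ∀ x : ℝ, 0 ≤ x → x ≤ c → mv k x = 1 - (1 - x) ^ k) {ι : Type} [Fintype ι] {p y : ι → ℝ}
    (hw : Wl p y) {g : ℝ} (hg0 : 0 ≤ g) (hgc : g ≤ c) (hkg : (k : ℝ) * g ≤ 1) (hg1 : g ≤ 1)
    (hm : ma p y g = 0) : UP p y k 1 ≤ k * g := by
  have hz : ∀ i, g < y i → p i = 0 := by
    intro i hi
    have h2 := (Finset.sum_eq_zero_iff_of_nonneg (s := univ)
      (f := fun i => if g < y i then p i else 0)
      (fun i _ => by split_ifs; exacts [hw.p0 i, le_rfl])).1 hm i (mem_univ i)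
    simpa [hi] using h2
  have hmu : mu p y ≤ g := by
    unfold mu
    calc ∑ i, p i * y i ≤ ∑ i, p i * g := by
          refine Finset.sum_le_sum fun i _ => ?_
          rcases lt_or_ge g (y i) with h | h
          · rw [hz i h]; simp
          · exact mul_le_mul_of_nonneg_left h (hw.p0 i)
      _ = g := by rw [← Finset.sum_mul, hw.p1, one_mul]
  have h3 := hL ι p y g hw hmu hg0 hkg
  rw [h1 g hg0 hgc] at h3
  have h4 : 1 + (k : ℝ) * (-g) ≤ (1 + -g) ^ k := one_add_mul_le_pow (by linarith) k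
  have h5 : (1 + -g) = 1 - g := by ring
  rw [h5] at h4
  linarith

theorem pig {R : ℕ} (hR : 0 < R) (M : ℕ → ℝ) (h0 : 0 ≤ M 0) (h1 : M R ≤ 1) :
    ∃ i < R, M (i + 1) - M i ≤ 1 / R := by
  by_contra hcon
  push Not at hcon
  have hs : ∑ i ∈ range R, (M (i + 1) - M i) = M R - M 0 := Finset.sum_range_sub M R
  have h2 : ∑ i ∈ range R, (1 / (R : ℝ)) < ∑ i ∈ range R, (M (i + 1) - M i) :=
    Finset.sum_lt_sum_of_nonempty (by simpa using hR.ne') (fun i hi => hcon i (mem_range.1 hi))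
  rw [hs, sum_const, card_range, nsmul_eq_mul] at h2
  have h3 : (R : ℝ) * (1 / R) = 1 := by
    have : (R : ℝ) ≠ 0 := by exact_mod_cast hR.ne'
    field_simp
  linarith

/-- the levels -/
noncomputable def lev (k : ℕ) (κ g0 : ℝ) : ℕ → ℝ
  | 0 => g0
  | i + 1 => κ * (lev k κ g0 i) ^ k

theorem lev_pos {k : ℕ} {κ g0 : ℝ} (hκ : 0 < κ) (hg : 0 < g0) : ∀ i, 0 < lev k κ g0 i
  | 0 => hg
  | i + 1 => mul_pos hκ (pow_pos (lev_pos hκ hg i) k)

theorem lev_step {k : ℕ} (hk : 2 ≤ k) {κ g0 : ℝ} (hκ : 0 < κ) (hκ1 : κ ≤ 1) (hg : 0 < g0)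
    (hg1 : g0 ≤ 1) : ∀ i, lev k κ g0 (i + 1) ≤ lev k κ g0 i ∧ lev k κ g0 i ≤ g0
  | 0 => by
    refine ⟨?_, le_rfl⟩
    show κ * g0 ^ k ≤ g0
    have h1 : g0 ^ k ≤ g0 := pow_le_of_le_one hg.le hg1 (by omega)
    calc κ * g0 ^ k ≤ 1 * g0 ^ k := mul_le_mul_of_nonneg_right hκ1 (pow_nonneg hg.le k)
      _ ≤ g0 := by linarith
  | i + 1 => by
    obtain ⟨h1, h2⟩ := lev_step hk hκ hκ1 hg hg1 i
    have h3 := lev_pos (k := k) hκ hg (i + 1)
    refine ⟨?_, h1.trans h2⟩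
    show κ * (lev k κ g0 (i + 1)) ^ k ≤ lev k κ g0 (i + 1)
    have h4 : (lev k κ g0 (i + 1)) ^ k ≤ lev k κ g0 (i + 1) :=
      pow_le_of_le_one h3.le (h1.trans (h2.trans hg1)) (by omega)
    calc κ * (lev k κ g0 (i + 1)) ^ k ≤ 1 * (lev k κ g0 (i + 1)) ^ k :=
          mul_le_mul_of_nonneg_right hκ1 (pow_nonneg h3.le k)
      _ ≤ _ := by linarith

theorem lev_anti {k : ℕ} (hk : 2 ≤ k) {κ g0 : ℝ} (hκ : 0 < κ) (hκ1 : κ ≤ 1) (hg : 0 < g0)
    (hg1 : g0 ≤ 1) {i j : ℕ} (hij : i ≤ j) : lev k κ g0 j ≤ lev k κ g0 i :=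
  antitone_nat_of_succ_le (fun n => (lev_step hk hκ hκ1 hg hg1 n).1) hij

/-- part (b) -/
theorem stb {k : ℕ} (hk : 2 ≤ k) {c x P G m ξ : ℝ} (hc : 0 < c) (hP0 : 0 < P) (hP1 : P ≤ 1)
    (hG0 : 0 < G) (hG : (k : ℝ) * G ≤ 1 / 2) (hm0 : 0 ≤ m) (hm : m ≤ ξ / 2) (hξ0 : 0 < ξ)
    (hx : c + G ≤ x) (hu : (k : ℝ) * x / P ≤ 1 - ξ) :
    c ≤ (x / P - G * (1 - m)) / (1 - k * G) ∧
    (k : ℝ) * ((x / P - G * (1 - m)) / (1 - k * G)) ≤ 1 ∧
    ((k : ℝ) * ((x / P - G * (1 - m)) / (1 - k * G))) ^ k ≤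
      ((k : ℝ) * x / P) ^ k - (k * G * ξ / 2) ^ k := by
  have hk0 : (0 : ℝ) < k := by exact_mod_cast (by omega : 0 < k)
  have hx0 : 0 < x := by linarith
  have hX : x ≤ x / P := by
    rw [le_div_iff₀ hP0]
    calc x * P ≤ x * 1 := mul_le_mul_of_nonneg_left hP1 hx0.le
      _ = x := mul_one x
  have hD : 0 < 1 - (k : ℝ) * G := by linarith
  have hkG : 0 < (k : ℝ) * G := mul_pos hk0 hG0
  have h1 : c ≤ (x / P - G * (1 - m)) / (1 - k * G) := by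
    rw [le_div_iff₀ hD]
    have e1 : c * (1 - (k : ℝ) * G) ≤ c * 1 := mul_le_mul_of_nonneg_left (by linarith) hc.le
    have e2 : 0 ≤ G * m := mul_nonneg hG0.le hm0
    have e3 : G * (1 - m) = G - G * m := by ring
    linarith
  have ha : (k : ℝ) * x / P = k * (x / P) := mul_div_assoc _ _ _
  have h2 : (k : ℝ) * ((x / P - G * (1 - m)) / (1 - k * G)) ≤ (k : ℝ) * x / P - k * G * ξ / 2 := by
    rw [← mul_div_assoc, div_le_iff₀ hD, ha]
    rw [ha] at hu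
    have e1 : 0 ≤ ((k : ℝ) * G) * ((1 - m) - k * (x / P) - ξ / 2 + k * G * ξ / 2) := by
      refine mul_nonneg hkG.le ?_
      have : 0 ≤ (k : ℝ) * G * ξ / 2 := by positivity
      linarith
    have e2 : ((k : ℝ) * (x / P) - k * G * ξ / 2) * (1 - k * G) -
        (k : ℝ) * (x / P - G * (1 - m)) =
        ((k : ℝ) * G) * ((1 - m) - k * (x / P) - ξ / 2 + k * G * ξ / 2) := by ring
    linarith
  have h3 : 0 ≤ (k : ℝ) * G * ξ / 2 := by positivity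
  have h4 : 0 ≤ (k : ℝ) * ((x / P - G * (1 - m)) / (1 - k * G)) :=
    mul_nonneg hk0.le (hc.le.trans h1)
  refine ⟨h1, by linarith, ?_⟩
  have h5 : ((k : ℝ) * ((x / P - G * (1 - m)) / (1 - k * G))) ^ k ≤
      ((k : ℝ) * x / P - k * G * ξ / 2) ^ k := pow_le_pow_left₀ h4 h2 k
  have h6 : ((k : ℝ) * x / P - k * G * ξ / 2) ^ k + (k * G * ξ / 2) ^ k ≤
      (((k : ℝ) * x / P - k * G * ξ / 2) + k * G * ξ / 2) ^ k :=
    pow_add_pow_le (h4.trans h2) h3 (by omega)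
  rw [sub_add_cancel] at h6
  linarith

/-- lower bound of `P` -/
theorem stp {k : ℕ} (hk : 2 ≤ k) {u P W δ : ℝ} (hu : 0 < u) (hP : 0 ≤ P) (hW : W ≤ 1)
    (hδ0 : 0 ≤ δ) (hδ1 : δ < 1) (h : u ^ k * (1 - δ) ≤ P ^ k * W) : u * (1 - δ) ≤ P := by
  by_contra hcon
  push Not at hcon
  have h1 : P ^ k * W ≤ P ^ k := by
    calc P ^ k * W ≤ P ^ k * 1 := mul_le_mul_of_nonneg_left hW (pow_nonneg hP k)
      _ = P ^ k := mul_one _
  have h2 : P ^ k < (u * (1 - δ)) ^ k := pow_lt_pow_left₀ hcon hP (by omega)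
  have h3 : (u * (1 - δ)) ^ k = u ^ k * (1 - δ) ^ k := mul_pow _ _ _
  have h4 : (1 - δ) ^ k ≤ 1 - δ := pow_le_of_le_one (by linarith) (by linarith) (by omega)
  have h5 : u ^ k * (1 - δ) ^ k ≤ u ^ k * (1 - δ) :=
    mul_le_mul_of_nonneg_left h4 (pow_nonneg hu.le k)
  linarith

/-- part (c) -/
theorem stc1 {k : ℕ} {u P W δ ξ d : ℝ} (hP : 0 < P)
    (hδ0 : 0 ≤ δ) (hδ1 : δ ≤ 1) (hξ0 : 0 ≤ ξ) (hξ1 : ξ ≤ 1) (hd : (k : ℝ) * ξ + δ ≤ d)
    (h1 : P * (1 - ξ) ≤ u) (h : u ^ k * (1 - δ) ≤ P ^ k * W) : 1 - d ≤ W := by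
  have h2 : (P * (1 - ξ)) ^ k ≤ u ^ k := pow_le_pow_left₀ (mul_nonneg hP.le (by linarith)) h1 k
  rw [mul_pow] at h2
  have h3 : P ^ k * (1 - ξ) ^ k * (1 - δ) ≤ u ^ k * (1 - δ) :=
    mul_le_mul_of_nonneg_right h2 (by linarith)
  have h4 : P ^ k * ((1 - ξ) ^ k * (1 - δ)) ≤ P ^ k * W := by
    calc P ^ k * ((1 - ξ) ^ k * (1 - δ)) = P ^ k * (1 - ξ) ^ k * (1 - δ) := by ring
      _ ≤ _ := h3.trans h
  have h5 : (1 - ξ) ^ k * (1 - δ) ≤ W := le_of_mul_le_mul_left h4 (pow_pos hP k)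
  have h6 : 1 + (k : ℝ) * (-ξ) ≤ (1 + -ξ) ^ k := one_add_mul_le_pow (by linarith) k
  have h7 : (1 + -ξ) = 1 - ξ := by ring
  rw [h7] at h6
  have h8 : (1 + (k : ℝ) * (-ξ)) * (1 - δ) ≤ (1 - ξ) ^ k * (1 - δ) :=
    mul_le_mul_of_nonneg_right h6 (by linarith)
  have h9 : 0 ≤ (k : ℝ) * ξ * δ := mul_nonneg (mul_nonneg (Nat.cast_nonneg k) hξ0) hδ0
  have h10 : (1 + (k : ℝ) * (-ξ)) * (1 - δ) = 1 - k * ξ - δ + k * ξ * δ := by ring
  linarith

/-- the `q`-mass of `{y ≤ G}` -/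
theorem mass_q {ι : Type} [Fintype ι] (p y : ι → ℝ) {g G P : ℝ} (hgG : g ≤ G) :
    (∑ i, if y i ≤ G then (if g < y i then p i / P else 0) else 0) = (ma p y g - ma p y G) / P := by
  unfold ma
  rw [← Finset.sum_sub_distrib, Finset.sum_div]
  refine Finset.sum_congr rfl fun i _ => ?_
  by_cases h1 : y i ≤ G
  · have h2 : ¬ G < y i := not_lt.2 h1
    by_cases h3 : g < y i
    · simp [h1, h2, h3]
    · simp [h1, h2, h3]
  · have h2 : G < y i := not_le.1 h1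
    have h3 : g < y i := lt_of_le_of_lt hgG h2
    simp [h1, h2, h3]

/-- Markov -/
theorem markov {ι : Type} [Fintype ι] {p y : ι → ℝ} (hw : Wl p y) {g P γ t D : ℝ} (hP0 : 0 < P)
    (hP1 : P ≤ 1) (hγ : 0 < γ) (hg : g ≤ γ)
    (h : ∑ i, (if g < y i then p i / P else 0) * |y i - t| ≤ D) (hD : D ≤ γ ^ 2) :
    (∑ i, if γ < y i ∧ γ < |y i - t| then p i else 0) ≤ γ := by
  have h1 : γ * (∑ i, if γ < y i ∧ γ < |y i - t| then p i else 0) ≤
      ∑ i, (if g < y i then p i / P else 0) * |y i - t| := by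
    rw [Finset.mul_sum]
    refine Finset.sum_le_sum fun i _ => ?_
    by_cases hc : γ < y i ∧ γ < |y i - t|
    · have h2 : g < y i := lt_of_le_of_lt hg hc.1
      rw [if_pos hc, if_pos h2]
      have h3 : p i ≤ p i / P := by
        rw [le_div_iff₀ hP0]
        calc p i * P ≤ p i * 1 := mul_le_mul_of_nonneg_left hP1 (hw.p0 i)
          _ = p i := mul_one _
      calc γ * p i = p i * γ := mul_comm _ _
        _ ≤ (p i / P) * |y i - t| :=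
          mul_le_mul h3 hc.2.le hγ.le (div_nonneg (hw.p0 i) hP0.le)
    · rw [if_neg hc, mul_zero]
      refine mul_nonneg ?_ (abs_nonneg _)
      split_ifs
      exacts [div_nonneg (hw.p0 i) hP0.le, le_rfl]
  have h2 : γ * (∑ i, if γ < y i ∧ γ < |y i - t| then p i else 0) ≤ γ * γ := by
    calc _ ≤ D := h1.trans h
      _ ≤ γ ^ 2 := hD
      _ = γ * γ := by ring
  exact le_of_mul_le_mul_left h2 hγ

/-- one level -/
theorem core {k : ℕ} (hk : 2 ≤ k) (hL : LMW k) {c : ℝ} (hc0 : 0 < c)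
    (f1 : ∀ x : ℝ, 0 ≤ x → x ≤ c → mv k x = 1 - (1 - x) ^ k)
    (f2 : ∀ x : ℝ, c ≤ x → (k : ℝ) * x ≤ 1 → mv k x = ((k : ℝ) * x) ^ k)
    (hSPL : S_SPL) (hCNC : S_CNC) (hSHI : S_SHI) {x C η d γ ξ1 g G : ℝ} {ι : Type} [Fintype ι]
    {p y : ι → ℝ} (hw : Wl p y) (hmu : mu p y ≤ x) (hx : c + G ≤ x)
    (hUP : ((k : ℝ) * x) ^ k - η ≤ UP p y k 1) (hCB : UP p y (k - 1) (1 - g) ≤ C * (g + η))
    (hg0 : 0 < g) (hgG : g ≤ G) (hkG : (k : ℝ) * G ≤ 1 / 2) (hGγ : G ≤ γ) (hGc : G ≤ c)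
    (h1 : (k : ℝ) * g + η < ((k : ℝ) * x) ^ k) (hd0 : 0 < d) (hd1 : d ≤ 1 / 2)
    (hdγ : 7 * d ≤ γ ^ 2) (h2 : η + k * (C * (g + η)) ≤ ((k : ℝ) * x) ^ k * (d / 4))
    (hξ0 : 0 < ξ1) (hξ1 : (k : ℝ) * ξ1 = d / 2)
    (h3 : η + k * (C * (g + η)) < ((k : ℝ) * c / 2 * (k * G * ξ1 / 2)) ^ k)
    (hm : ma p y g - ma p y G ≤ (k : ℝ) * c / 2 * (ξ1 / 2)) :
    (∑ i, if γ < y i ∧ γ < |y i - 1 / (k : ℝ)| then p i else 0) ≤ γ := by
  have hk0 : (0 : ℝ) < k := by exact_mod_cast (by omega : 0 < k)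
  have hk2 : (2 : ℝ) ≤ k := by exact_mod_cast hk
  have hG0 : 0 < G := lt_of_lt_of_le hg0 hgG
  have hγ : 0 < γ := lt_of_lt_of_le hG0 hGγ
  have hx0 : 0 < x := by linarith
  have hG1 : G ≤ 1 := by
    have : 2 * G ≤ k * G := mul_le_mul_of_nonneg_right hk2 hG0.le
    linarith
  have hkg : (k : ℝ) * g ≤ k * G := mul_le_mul_of_nonneg_left hgG hk0.le
  have hu : 0 < (k : ℝ) * x := mul_pos hk0 hx0
  have hP0 : 0 < ma p y g := by
    rcases (ma_nonneg hw g).lt_or_eq with h | h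
    · exact h
    · exfalso
      have := up_of_ma hL f1 hw hg0.le (hgG.trans hGc) (by linarith) (hgG.trans hG1) h.symm
      linarith
  have hP1 : ma p y g ≤ 1 := ma_le_one hw g
  have hmass := mass_q p y hgG (P := ma p y g)
  obtain ⟨P, hP⟩ : ∃ P, P = ma p y g := ⟨_, rfl⟩
  rw [← hP] at hP0 hP1 hm hmass
  obtain ⟨hq, hqmu, hqUP⟩ := hSPL k (by omega) ι p y g P hw hP hP0
  obtain ⟨q, hqd⟩ : ∃ q : ι → ℝ, q = (fun i => if g < y i then p i / P else 0) := ⟨_, rfl⟩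
  rw [← hqd] at hq hqmu hqUP
  have hmass' : (∑ i, if y i ≤ G then q i else 0) = (P - ma p y G) / P := by
    rw [hqd]; exact hmass
  obtain ⟨W, hWd⟩ : ∃ W, W = UP q y k 1 := ⟨_, rfl⟩
  rw [← hWd] at hqUP
  have hW1 : W ≤ 1 := by rw [hWd]; exact UP_le_one hq k 1
  have hkCB : (k : ℝ) * UP p y (k - 1) (1 - g) ≤ k * (C * (g + η)) :=
    mul_le_mul_of_nonneg_left hCB hk0.le
  have hA0 : ((k : ℝ) * x) ^ k - (η + k * (C * (g + η))) ≤ P ^ k * W := by linarith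
  have hA : ((k : ℝ) * x) ^ k * (1 - d / 4) ≤ P ^ k * W := by
    have : ((k : ℝ) * x) ^ k * (1 - d / 4) = ((k : ℝ) * x) ^ k - ((k : ℝ) * x) ^ k * (d / 4) := by
      ring
    linarith
  have hPu : (k : ℝ) * x * (1 - d / 4) ≤ P := stp hk hu hP0.le hW1 (by linarith) (by linarith) hA
  have hkcx : (k : ℝ) * c ≤ k * x := mul_le_mul_of_nonneg_left (by linarith) hk0.le
  have hPπ : (k : ℝ) * c / 2 ≤ P := by
    have : (k : ℝ) * x * (1 / 2) ≤ k * x * (1 - d / 4) :=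
      mul_le_mul_of_nonneg_left (by linarith) hu.le
    linarith
  obtain ⟨m, hmd⟩ : ∃ m, m = ∑ i, (if y i ≤ G then q i else 0) := ⟨_, rfl⟩
  have hm0 : 0 ≤ m := by
    rw [hmd]
    exact Finset.sum_nonneg fun i _ => by split_ifs; exacts [hq.p0 i, le_rfl]
  have hm1 : m ≤ ξ1 / 2 := by
    rw [hmd, hmass', div_le_iff₀ hP0]
    have : (k : ℝ) * c / 2 * (ξ1 / 2) ≤ P * (ξ1 / 2) :=
      mul_le_mul_of_nonneg_right hPπ (by linarith)
    linarith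
  have hqx : mu q y ≤ x / P := by
    rw [le_div_iff₀ hP0, mul_comm]
    exact hqmu.trans hmu
  have hux : (k : ℝ) * x / P = k * (x / P) := mul_div_assoc _ _ _
  by_cases hcase : (k : ℝ) * x / P ≤ 1 - ξ1
  · exfalso
    have hkm : (k : ℝ) * G * m ≤ 1 / 2 * m := mul_le_mul_of_nonneg_right hkG hm0
    have hs := hSHI k hk hL ι q y G (x / P) hq hG0.le (by linarith) hqx (by
      rw [← hmd, ← hux]
      linarith)
    rw [← hmd, ← hWd] at hs
    obtain ⟨b1, b2, b3⟩ := stb hk hc0 hP0 hP1 hG0 hkG hm0 hm1 hξ0 hx hcase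
    rw [f2 _ b1 b2] at hs
    have hW2 : W ≤ ((k : ℝ) * x / P) ^ k - (k * G * ξ1 / 2) ^ k := hs.trans b3
    have hPk : 0 < P ^ k := pow_pos hP0 k
    have e1 : P ^ k * W ≤ P ^ k * (((k : ℝ) * x / P) ^ k - (k * G * ξ1 / 2) ^ k) :=
      mul_le_mul_of_nonneg_left hW2 hPk.le
    have e2 : P ^ k * (((k : ℝ) * x / P) ^ k - (k * G * ξ1 / 2) ^ k) =
        ((k : ℝ) * x) ^ k - (P * (k * G * ξ1 / 2)) ^ k := by
      rw [mul_sub, ← mul_pow, ← mul_pow]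
      congr 2
      field_simp
    have e3 : ((k : ℝ) * c / 2 * (k * G * ξ1 / 2)) ^ k ≤ (P * (k * G * ξ1 / 2)) ^ k :=
      pow_le_pow_left₀ (by positivity) (mul_le_mul_of_nonneg_right hPπ (by positivity)) k
    linarith
  · push Not at hcase
    have hc1 : P * (1 - ξ1) ≤ k * x := by
      have := (lt_div_iff₀ hP0).1 hcase
      linarith
    have hξ1' : ξ1 ≤ 1 := by
      have : 2 * ξ1 ≤ k * ξ1 := mul_le_mul_of_nonneg_right hk2 hξ0.le
      linarith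
    have hWd1 : 1 - d ≤ W :=
      stc1 hP0 (by linarith) (by linarith) hξ0.le hξ1' (by rw [hξ1]; linarith) hc1 hA
    have hup : (k : ℝ) * x ≤ P * (1 + d) := by
      have e1 : (k : ℝ) * x * (1 - d / 4) * (1 + d) ≤ P * (1 + d) :=
        mul_le_mul_of_nonneg_right hPu (by linarith)
      have e2 : (k : ℝ) * x * 1 ≤ (k : ℝ) * x * ((1 - d / 4) * (1 + d)) := by
        refine mul_le_mul_of_nonneg_left ?_ hu.le
        have e3 : (1 - d / 4) * (1 + d) = 1 + d / 4 * (3 - d) := by ring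
        have e4 : 0 ≤ d / 4 * (3 - d) := mul_nonneg (by linarith) (by linarith)
        linarith
      calc (k : ℝ) * x = (k : ℝ) * x * 1 := (mul_one _).symm
        _ ≤ (k : ℝ) * x * ((1 - d / 4) * (1 + d)) := e2
        _ = (k : ℝ) * x * (1 - d / 4) * (1 + d) := by ring
        _ ≤ _ := e1
    have hkmu : (k : ℝ) * mu q y ≤ 1 + d := by
      have e1 : P * ((k : ℝ) * mu q y) ≤ P * (1 + d) := by
        have e2 : (k : ℝ) * (P * mu q y) ≤ k * x :=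
          mul_le_mul_of_nonneg_left (hqmu.trans hmu) hk0.le
        calc P * ((k : ℝ) * mu q y) = (k : ℝ) * (P * mu q y) := by ring
          _ ≤ k * x := e2
          _ ≤ _ := hup
      exact le_of_mul_le_mul_left e1 hP0
    have hfin := hCNC k (by omega) ι q y d hq hkmu (by rw [← hWd]; exact hWd1)
    rw [hqd] at hfin
    exact markov hw hP0 hP1 hγ (hgG.trans hGγ) hfin hdγ

theorem t_STC : S_CRF → S_CRB → S_SPL → S_CNC → S_SHI → S_STC := by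
  intro hCRF hCRB hSPL hCNC hSHI k hk hL c hc e0 ξ γ he0 hξ hγ
  obtain ⟨f1, f2, -⟩ := hCRF k hk c hc
  obtain ⟨C, hC, hB⟩ := hCRB k hk hL c hc e0 ξ he0 hξ
  have hc0 : 0 < c := hc.1
  have hk0 : (0 : ℝ) < k := by exact_mod_cast (by omega : 0 < k)
  have hk2 : (2 : ℝ) ≤ k := by exact_mod_cast hk
  obtain ⟨a0, ha0⟩ : ∃ a0, a0 = ((k : ℝ) * c) ^ k := ⟨_, rfl⟩
  have ha : 0 < a0 := by rw [ha0]; positivity
  obtain ⟨d, hd0, hd1, hdγ⟩ : ∃ d : ℝ, 0 < d ∧ d ≤ 1 / 2 ∧ 7 * d ≤ γ ^ 2 := by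
    refine ⟨min (γ ^ 2 / 7) (1 / 2), lt_min (by positivity) (by norm_num), min_le_right _ _, ?_⟩
    have := min_le_left (γ ^ 2 / 7) (1 / 2)
    linarith
  obtain ⟨ξ1, hξ0, hξ1⟩ : ∃ ξ1 : ℝ, 0 < ξ1 ∧ (k : ℝ) * ξ1 = d / 2 :=
    ⟨d / (2 * k), by positivity, by field_simp⟩
  obtain ⟨B, hBd⟩ : ∃ B, B = (k : ℝ) * c / 2 * (ξ1 / 2) := ⟨_, rfl⟩
  have hBp : 0 < B := by rw [hBd]; positivity
  obtain ⟨R, hR0, hR⟩ : ∃ R : ℕ, 0 < R ∧ 1 / (R : ℝ) ≤ B := by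
    obtain ⟨n, hn⟩ := exists_nat_one_div_lt hBp
    refine ⟨n + 1, Nat.succ_pos n, ?_⟩
    push_cast
    exact hn.le
  obtain ⟨A, hAd⟩ : ∃ A, A = ((k : ℝ) * c / 2 * (k * ξ1 / 2)) ^ k := ⟨_, rfl⟩
  have hA0 : 0 < A := by rw [hAd]; positivity
  obtain ⟨κ, hκ0, hκ1, hκ⟩ : ∃ κ : ℝ, 0 < κ ∧ κ ≤ 1 ∧ (k : ℝ) * C * κ ≤ A / 4 := by
    refine ⟨min 1 (A / (4 * k * C)), lt_min one_pos (by positivity), min_le_left _ _, ?_⟩
    calc (k : ℝ) * C * min 1 (A / (4 * k * C)) ≤ (k : ℝ) * C * (A / (4 * k * C)) :=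
          mul_le_mul_of_nonneg_left (min_le_right _ _) (by positivity)
      _ = A / 4 := by field_simp
  obtain ⟨g0, hg0, hgγ, hge, hgc, hgk, hg1, hg2, hg3⟩ : ∃ g0 : ℝ, 0 < g0 ∧ g0 ≤ γ ∧ g0 ≤ e0 ∧
      g0 ≤ c ∧ (k : ℝ) * g0 ≤ 1 / 2 ∧ g0 ≤ 1 ∧ (k : ℝ) * C * g0 ≤ a0 * d / 8 ∧
      (k : ℝ) * g0 ≤ a0 / 4 := by
    have hm1 : 0 < min (1 / (2 * (k : ℝ))) (min (a0 * d / (8 * (k * C))) (a0 / (4 * k))) :=
      lt_min (by positivity) (lt_min (by positivity) (by positivity))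
    refine ⟨min (min γ (min e0 (min c 1)))
      (min (1 / (2 * (k : ℝ))) (min (a0 * d / (8 * (k * C))) (a0 / (4 * k)))),
      lt_min (lt_min hγ (lt_min he0 (lt_min hc0 one_pos))) hm1,
      (min_le_left _ _).trans (min_le_left _ _),
      (min_le_left _ _).trans ((min_le_right _ _).trans (min_le_left _ _)),
      (min_le_left _ _).trans ((min_le_right _ _).trans ((min_le_right _ _).trans
        (min_le_left _ _))), ?_,
      (min_le_left _ _).trans ((min_le_right _ _).trans ((min_le_right _ _).trans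
        (min_le_right _ _))), ?_, ?_⟩
    · calc _ ≤ (k : ℝ) * (1 / (2 * k)) := mul_le_mul_of_nonneg_left
            ((min_le_right _ _).trans (min_le_left _ _)) hk0.le
        _ = 1 / 2 := by field_simp
    · calc _ ≤ (k : ℝ) * C * (a0 * d / (8 * (k * C))) := mul_le_mul_of_nonneg_left
            ((min_le_right _ _).trans ((min_le_right _ _).trans (min_le_left _ _)))
            (by positivity)
        _ = a0 * d / 8 := by field_simp
    · calc _ ≤ (k : ℝ) * (a0 / (4 * k)) := mul_le_mul_of_nonneg_left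
            ((min_le_right _ _).trans ((min_le_right _ _).trans (min_le_right _ _))) hk0.le
        _ = a0 / 4 := by field_simp
  obtain ⟨gR, hgR⟩ : ∃ gR, gR = lev k κ g0 R := ⟨_, rfl⟩
  have hgR0 : 0 < gR := by rw [hgR]; exact lev_pos hκ0 hg0 R
  obtain ⟨η, hη0, hη1, hη2, hη3⟩ : ∃ η : ℝ, 0 < η ∧ (1 + k * C) * η ≤ a0 * d / 8 ∧
      (1 + k * C) * η ≤ A * gR ^ k / 4 ∧ η ≤ a0 / 4 := by
    have hkC : 0 < 1 + (k : ℝ) * C := by positivity
    refine ⟨min (a0 * d / 8 / (1 + k * C)) (min (A * gR ^ k / 4 / (1 + k * C)) (a0 / 8)),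
      lt_min (by positivity) (lt_min (by positivity) (by positivity)), ?_, ?_, ?_⟩
    · calc _ ≤ (1 + (k : ℝ) * C) * (a0 * d / 8 / (1 + k * C)) :=
            mul_le_mul_of_nonneg_left (min_le_left _ _) hkC.le
        _ = a0 * d / 8 := by field_simp
    · calc _ ≤ (1 + (k : ℝ) * C) * (A * gR ^ k / 4 / (1 + k * C)) :=
            mul_le_mul_of_nonneg_left ((min_le_right _ _).trans (min_le_left _ _)) hkC.le
        _ = A * gR ^ k / 4 := by field_simp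
    · have h8 : a0 / 8 ≤ a0 / 4 := by linarith
      exact ((min_le_right _ _).trans (min_le_right _ _)).trans h8
  refine ⟨η / 2, by positivity, ?_⟩
  intro x hx hkx ι _ p y hw hmu hUP
  have hη' : η / 2 ≤ η := by linarith
  have hak : a0 ≤ ((k : ℝ) * x) ^ k := by
    rw [ha0]
    exact pow_le_pow_left₀ (by positivity) (mul_le_mul_of_nonneg_left (by linarith) hk0.le) k
  obtain ⟨i, hi, hpi⟩ := pig hR0 (fun j => ma p y (lev k κ g0 j)) (ma_nonneg hw _) (ma_le_one hw _)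
  have hGp : 0 < lev k κ g0 i := lev_pos hκ0 hg0 i
  have hgp : 0 < lev k κ g0 (i + 1) := lev_pos hκ0 hg0 (i + 1)
  have hst := lev_step hk hκ0 hκ1 hg0 hg1 i
  have hge' : lev k κ g0 (i + 1) = κ * (lev k κ g0 i) ^ k := rfl
  have hRG : gR ≤ lev k κ g0 i := by rw [hgR]; exact lev_anti hk hκ0 hκ1 hg0 hg1 hi.le
  obtain ⟨G, hGd⟩ : ∃ G, G = lev k κ g0 i := ⟨_, rfl⟩
  obtain ⟨g, hgd⟩ : ∃ g, g = lev k κ g0 (i + 1) := ⟨_, rfl⟩
  simp only [← hGd, ← hgd] at hpi hGp hgp hst hge' hRG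
  obtain ⟨hgG, hGg0⟩ := hst
  have hkCg : (k : ℝ) * C * g ≤ A * G ^ k / 4 := by
    rw [hge']
    calc (k : ℝ) * C * (κ * G ^ k) = (k * C * κ) * G ^ k := by ring
      _ ≤ A / 4 * G ^ k := mul_le_mul_of_nonneg_right hκ (pow_nonneg hGp.le k)
      _ = A * G ^ k / 4 := by ring
  have hkCg2 : (k : ℝ) * C * g ≤ a0 * d / 8 := by
    calc (k : ℝ) * C * g ≤ k * C * g0 :=
          mul_le_mul_of_nonneg_left (hgG.trans hGg0) (by positivity)
      _ ≤ _ := hg2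
  have hsum : η + k * (C * (g + η)) = k * C * g + (1 + k * C) * η := by ring
  have hGR : A * gR ^ k ≤ A * G ^ k :=
    mul_le_mul_of_nonneg_left (pow_le_pow_left₀ hgR0.le hRG k) hA0.le
  have hkg : (k : ℝ) * g ≤ k * g0 := mul_le_mul_of_nonneg_left (hgG.trans hGg0) hk0.le
  have hkG : (k : ℝ) * G ≤ k * g0 := mul_le_mul_of_nonneg_left hGg0 hk0.le
  have hUP' : ((k : ℝ) * x) ^ k - η ≤ UP p y k 1 := by linarith
  refine core (C := C) (η := η) (d := d) (ξ1 := ξ1) (g := g) (G := G) hk hL hc0 f1 f2 hSPL hCNC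
    hSHI hw hmu (by linarith) hUP'
    (hB x hx hkx ι p y η g hw hmu hη0.le hUP' hgp.le (by linarith)) hgp hgG (by linarith)
    (by linarith) (by linarith) (by linarith) hd0 hd1 hdγ ?_ hξ0 hξ1 ?_ (by linarith)
  · rw [hsum]
    have : a0 * (d / 4) ≤ ((k : ℝ) * x) ^ k * (d / 4) :=
      mul_le_mul_of_nonneg_right hak (by linarith)
    linarith
  · rw [hsum]
    have e1 : ((k : ℝ) * c / 2 * (k * G * ξ1 / 2)) ^ k = A * G ^ k := by
      rw [hAd, ← mul_pow]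
      congr 1
      ring
    rw [e1]
    have e2 : 0 < A * G ^ k := mul_pos hA0 (pow_pos hGp k)
    linarith

end Pool.Agent.Q224.XM
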